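import Pool.Agent.Helper40.AC.Stmts

/-!
Project AC (MP_4c91e2_ag), packet P10: the additive invariant of finitely generated projective
modules defined by `Phi` and the trace.
-/

set_option autoImplicit false

open scoped ContDiff Topology Matrix Kronecker TensorProduct
open MeasureTheory

namespace Pool.Agent.Helper39.AC

open Pool.Agent.Helper40.AC

noncomputable section

section General

variable {B : Type} [CommRing B]

/-- A retract of a free module is isomorphic to the range of the idempotent. -/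
theorem equiv_range {E F : Type} [AddCommGroup E] [Module B E] [AddCommGroup F] [Module B F]
    (i : E →ₗ[B] F) (p : F →ₗ[B] E) (h : p ∘ₗ i = LinearMap.id) :
    Nonempty (E ≃ₗ[B] LinearMap.range (i ∘ₗ p)) := by
  have hpi : ∀ x, p (i x) = x := fun x => LinearMap.congr_fun h x
  refine ⟨LinearEquiv.ofLinearMap
    (LinearMap.codRestrict (LinearMap.range (i ∘ₗ p)) i (fun x => ⟨i x, by simp [hpi]⟩))
    (p ∘ₗ (LinearMap.range (i ∘ₗ p)).subtype) ?_ ?_⟩
  · ext ⟨x, y, rfl⟩
    simp [hpi]
  · ext x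
    simp [hpi]

theorem range_ok : S_RANGE := by
  intro B _ E _ _ hfin hproj
  obtain ⟨n, π, hπ⟩ := Module.Finite.exists_fin' B E
  obtain ⟨s, hs⟩ := Module.projective_lifting_property π (LinearMap.id : E →ₗ[B] E) hπ
  refine ⟨n, LinearMap.toMatrix' (s ∘ₗ π), ?_, ?_⟩
  · rw [← LinearMap.toMatrix'_comp]
    congr 1
    apply LinearMap.ext
    intro v
    have h : π (s (π v)) = π v := LinearMap.congr_fun hs (π v)
    simp [h]
  · rw [Matrix.toLin'_toMatrix']
    exact equiv_range s π hs

/-- Isomorphic ranges give equivalent idempotents. -/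
theorem exists_ab {m n : Type} [Fintype m] [DecidableEq m] [Fintype n] [DecidableEq n]
    (e : Matrix m m B) (f : Matrix n n B) (he : e * e = e) (hf : f * f = f)
    (ψ : LinearMap.range (Matrix.toLin' e) ≃ₗ[B] LinearMap.range (Matrix.toLin' f)) :
    ∃ (a : Matrix m n B) (b : Matrix n m B), a * b = e ∧ b * a = f := by
  have he' : ∀ x : LinearMap.range (Matrix.toLin' e),
      (Matrix.toLin' e).rangeRestrict (x : m → B) = x := by
    rintro ⟨_, y, rfl⟩
    apply Subtype.ext
    simp [he]
  have hf' : ∀ x : LinearMap.range (Matrix.toLin' f),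
      (Matrix.toLin' f).rangeRestrict (x : n → B) = x := by
    rintro ⟨_, y, rfl⟩
    apply Subtype.ext
    simp [hf]
  refine ⟨LinearMap.toMatrix' ((LinearMap.range (Matrix.toLin' e)).subtype ∘ₗ
      (ψ.symm : _ →ₗ[B] _) ∘ₗ (Matrix.toLin' f).rangeRestrict),
    LinearMap.toMatrix' ((LinearMap.range (Matrix.toLin' f)).subtype ∘ₗ
      (ψ : _ →ₗ[B] _) ∘ₗ (Matrix.toLin' e).rangeRestrict), ?_, ?_⟩
  · rw [← LinearMap.toMatrix'_comp]
    apply Matrix.toLin'.injective
    rw [Matrix.toLin'_toMatrix']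
    apply LinearMap.ext
    intro v
    simp only [LinearMap.comp_apply, Submodule.coe_subtype, LinearEquiv.coe_coe]
    rw [hf', LinearEquiv.symm_apply_apply]
    rfl
  · rw [← LinearMap.toMatrix'_comp]
    apply Matrix.toLin'.injective
    rw [Matrix.toLin'_toMatrix']
    apply LinearMap.ext
    intro v
    simp only [LinearMap.comp_apply, Submodule.coe_subtype, LinearEquiv.coe_coe]
    rw [he', LinearEquiv.apply_symm_apply]
    rfl

end General

theorem key (h1 : S_EQUIV) {m n : Type} [Fintype m] [DecidableEq m] [Fintype n] [DecidableEq n]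
    (e : Matrix m m BB) (f : Matrix n n BB) (he : e * e = e) (hf : f * f = f)
    (ψ : LinearMap.range (Matrix.toLin' e) ≃ₗ[BB] LinearMap.range (Matrix.toLin' f)) :
    (Phi e, e.trace) = (Phi f, f.trace) := by
  obtain ⟨a, b, hab, hba⟩ := exists_ab e f he hf ψ
  have hΦ : Phi e = Phi f := h1 e f a b he hf hab hba
  have ht : e.trace = f.trace := by rw [← hab, ← hba, Matrix.trace_mul_comm]
  rw [hΦ, ht]

open Classical in
/-- The invariant. -/
def val0 (E : Type) [AddCommGroup E] [Module BB E] : ℂ × BB :=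
  if h : ∃ (n : ℕ) (e : Matrix (Fin n) (Fin n) BB), e * e = e ∧
      Nonempty (E ≃ₗ[BB] LinearMap.range (Matrix.toLin' e)) then
    (Phi h.choose_spec.choose, h.choose_spec.choose.trace)
  else 0

theorem val0_eq (h1 : S_EQUIV) (E : Type) [AddCommGroup E] [Module BB E]
    {n : Type} [Fintype n] [DecidableEq n] (e : Matrix n n BB) (he : e * e = e)
    (ψ : E ≃ₗ[BB] LinearMap.range (Matrix.toLin' e)) : val0 E = (Phi e, e.trace) := by
  have hex : ∃ (n : ℕ) (e : Matrix (Fin n) (Fin n) BB), e * e = e ∧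
      Nonempty (E ≃ₗ[BB] LinearMap.range (Matrix.toLin' e)) := by
    have hf : Module.Finite BB (LinearMap.range (Matrix.toLin' e)) := inferInstance
    have hp : Module.Projective BB (LinearMap.range (Matrix.toLin' e)) := by
      refine Module.Projective.of_split (LinearMap.range (Matrix.toLin' e)).subtype
        (Matrix.toLin' e).rangeRestrict ?_
      apply LinearMap.ext
      rintro ⟨_, y, rfl⟩
      apply Subtype.ext
      simp [he]
    obtain ⟨k, e', he', ⟨φ⟩⟩ := range_ok BB _ hf hp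
    exact ⟨k, e', he', ⟨ψ.trans φ⟩⟩
  unfold val0
  rw [dif_pos hex]
  obtain ⟨h2, ⟨φ⟩⟩ := hex.choose_spec.choose_spec
  exact key h1 _ e h2 he (φ.symm.trans ψ)

theorem val0_congr (h1 : S_EQUIV) (E E' : Type) [AddCommGroup E] [Module BB E]
    [AddCommGroup E'] [Module BB E'] (φ : E ≃ₗ[BB] E') : val0 E = val0 E' := by
  by_cases h : ∃ (n : ℕ) (e : Matrix (Fin n) (Fin n) BB), e * e = e ∧
      Nonempty (E ≃ₗ[BB] LinearMap.range (Matrix.toLin' e))
  · obtain ⟨n, e, he, ⟨ψ⟩⟩ := h
    rw [val0_eq h1 E e he ψ, val0_eq h1 E' e he (φ.symm.trans ψ)]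
  · have h' : ¬ ∃ (n : ℕ) (e : Matrix (Fin n) (Fin n) BB), e * e = e ∧
        Nonempty (E' ≃ₗ[BB] LinearMap.range (Matrix.toLin' e)) := by
      rintro ⟨n, e, he, ⟨ψ⟩⟩
      exact h ⟨n, e, he, ⟨φ.trans ψ⟩⟩
    unfold val0
    rw [dif_neg h, dif_neg h']

/-- The range of a block diagonal matrix. -/
theorem equiv_blocks {m n : Type} [Fintype m] [DecidableEq m] [Fintype n] [DecidableEq n]
    (e : Matrix m m BB) (f : Matrix n n BB) (he : e * e = e) (hf : f * f = f) :
    Nonempty ((LinearMap.range (Matrix.toLin' e) × LinearMap.range (Matrix.toLin' f)) ≃ₗ[BB]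
      LinearMap.range (Matrix.toLin' (Matrix.fromBlocks e 0 0 f))) := by
  have key2 := equiv_range
    ((LinearEquiv.sumArrowLequivProdArrow m n BB BB).symm.toLinearMap ∘ₗ
      LinearMap.prodMap (LinearMap.range (Matrix.toLin' e)).subtype
        (LinearMap.range (Matrix.toLin' f)).subtype)
    (LinearMap.prodMap (Matrix.toLin' e).rangeRestrict (Matrix.toLin' f).rangeRestrict ∘ₗ
      (LinearEquiv.sumArrowLequivProdArrow m n BB BB).toLinearMap) ?_
  · have h3 : ((LinearEquiv.sumArrowLequivProdArrow m n BB BB).symm.toLinearMap ∘ₗ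
        LinearMap.prodMap (LinearMap.range (Matrix.toLin' e)).subtype
          (LinearMap.range (Matrix.toLin' f)).subtype) ∘ₗ
        (LinearMap.prodMap (Matrix.toLin' e).rangeRestrict (Matrix.toLin' f).rangeRestrict ∘ₗ
          (LinearEquiv.sumArrowLequivProdArrow m n BB BB).toLinearMap) =
        Matrix.toLin' (Matrix.fromBlocks e 0 0 f) := by
      apply LinearMap.ext
      intro v
      funext k
      rw [Matrix.toLin'_apply, Matrix.fromBlocks_mulVec]
      rcases k with k | k
      · simp [LinearEquiv.sumArrowLequivProdArrow]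
        rfl
      · simp [LinearEquiv.sumArrowLequivProdArrow]
        rfl
    rw [h3] at key2
    exact key2
  · apply LinearMap.ext
    rintro ⟨⟨_, y, rfl⟩, ⟨_, z, rfl⟩⟩
    apply Prod.ext
    · apply Subtype.ext
      simp [he]
    · apply Subtype.ext
      simp [hf]

theorem inv_ok (h1 : S_EQUIV) (h2 : S_BLOCK) : S_INV := by
  refine ⟨⟨fun E => val0 E, fun E E' _ _ _ _ φ => val0_congr h1 E E' φ, ?_⟩, ?_⟩
  · intro E E' _ _ _ _ hE hE1 hE' hE1'
    obtain ⟨m, e, he, ⟨ψ⟩⟩ := range_ok BB E hE hE1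
    obtain ⟨n, f, hf, ⟨χ⟩⟩ := range_ok BB E' hE' hE1'
    obtain ⟨Θ⟩ := equiv_blocks e f he hf
    have h3 : Matrix.fromBlocks e 0 0 f * Matrix.fromBlocks e 0 0 f = Matrix.fromBlocks e 0 0 f := by
      rw [Matrix.fromBlocks_multiply]
      simp [he, hf]
    have h4 := val0_eq h1 (E × E') (Matrix.fromBlocks e 0 0 f) h3
      ((LinearEquiv.prodCongr ψ χ).trans Θ)
    show val0 (E × E') = val0 E + val0 E'
    have h5 : (Matrix.fromBlocks e 0 0 f).trace = e.trace + f.trace := by
      simp [Matrix.trace, Fintype.sum_sum_type]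
    rw [h4, val0_eq h1 E e he ψ, val0_eq h1 E' f hf χ, h2.1, h5]
    rfl
  · intro n _ _ e he
    exact val0_eq h1 _ e he (LinearEquiv.refl BB _)

end

end Pool.Agent.Helper39.AC
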